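import Pool.Agent.Q130.NM.Defs

/-!
# MP_415bd8: no bounded colour surplus forces rainbow subgraphs

For every `k` there is a graph `G` such that every proper edge colouring of `G` with at most
`χ'(G) + k` colours contains a rainbow 4-cycle, while some proper edge colouring does not.
-/

namespace Pool.Agent.Results.MP_415bd8_co.Surplus

open Q130.NM SimpleGraph Finset

/-- The vertices: `X P`, `A P` for every point `P` of the affine plane, `L μ b` for every line
(slope `μ`, intercept `b`), and `B P μ`, `C P μ` for every point and slope. -/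
inductive Vt (p : ℕ) : Type
  | X (P : ZMod p × ZMod p) : Vt p
  | A (P : ZMod p × ZMod p) : Vt p
  | B (P : ZMod p × ZMod p) (μ : Option (ZMod p)) : Vt p
  | C (P : ZMod p × ZMod p) (μ : Option (ZMod p)) : Vt p
  | L (μ : Option (ZMod p)) (b : ZMod p) : Vt p

open Vt

variable {p : ℕ}

instance [NeZero p] : Finite (Vt p) := by
  let f : Vt p → (ZMod p × ZMod p) ⊕ (ZMod p × ZMod p) ⊕ ((ZMod p × ZMod p) × Option (ZMod p)) ⊕
      ((ZMod p × ZMod p) × Option (ZMod p)) ⊕ (Option (ZMod p) × ZMod p) := fun v =>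
    match v with
    | X P => Sum.inl P
    | A P => Sum.inr (Sum.inl P)
    | B P μ => Sum.inr (Sum.inr (Sum.inl (P, μ)))
    | C P μ => Sum.inr (Sum.inr (Sum.inr (Sum.inl (P, μ))))
    | L μ b => Sum.inr (Sum.inr (Sum.inr (Sum.inr (μ, b))))
  refine Finite.of_injective f ?_
  intro a b hab
  cases a <;> cases b <;> simp_all [f]

/-- The intercept of the line of slope `μ` through `P`. -/
def bt : Option (ZMod p) → ZMod p × ZMod p → ZMod p
  | none, P => P.1
  | some m, P => P.2 - m * P.1

/-- Adjacency. -/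
def Ad : Vt p → Vt p → Prop
  | X P, A Q => P = Q
  | A Q, X P => P = Q
  | X P, B Q _ => P = Q
  | B Q _, X P => P = Q
  | X P, C Q _ => P = Q
  | C Q _, X P => P = Q
  | A P, L μ b => b = bt μ P
  | L μ b, A P => b = bt μ P
  | B P ν, L μ b => ν = μ ∧ b = bt μ P
  | L μ b, B P ν => ν = μ ∧ b = bt μ P
  | C P ν, L μ b => ν = μ ∧ b = bt μ P
  | L μ b, C P ν => ν = μ ∧ b = bt μ P
  | _, _ => False

/-- The graph `G`. -/
def gr (p : ℕ) : SimpleGraph (Vt p) where
  Adj := Ad
  symm := ⟨by intro a b h; cases a <;> cases b <;> simp_all [Ad]⟩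
  loopless := ⟨by intro a h; cases a <;> simp_all [Ad]⟩

lemma gr_adj {a b : Vt p} : (gr p).Adj a b ↔ Ad a b := Iff.rfl

/-- The edges of the 4-cycle. -/
lemma c4_edges : ∀ e ∈ (cycleGraph 4).edgeSet,
    e = s(0, 1) ∨ e = s(1, 2) ∨ e = s(2, 3) ∨ e = s(3, 0) := by
  intro e he
  induction e with
  | _ a b =>
    have h : (cycleGraph 4).Adj a b := he
    revert h
    revert a b
    decide

/-- Without rainbow 4-cycle every 4-cycle has two opposite edges of the same colour. -/
lemma opp {V : Type} {G : SimpleGraph V} {c : Sym2 V → ℕ} (hc : Proper G c)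
    (hno : ¬ HasRainbow G (cycleGraph 4) c) {x1 x2 x3 x4 : V} (h12 : G.Adj x1 x2)
    (h23 : G.Adj x2 x3) (h34 : G.Adj x3 x4) (h41 : G.Adj x4 x1) (h13 : x1 ≠ x3) (h24 : x2 ≠ x4) :
    c s(x1, x2) = c s(x3, x4) ∨ c s(x2, x3) = c s(x4, x1) := by
  by_contra hcon
  push Not at hcon
  obtain ⟨hc1, hc2⟩ := hcon
  apply hno
  have a1 : c s(x1, x2) ≠ c s(x2, x3) := by
    rw [Sym2.eq_swap]; exact hc.ne h12.symm h23 h13
  have a2 : c s(x2, x3) ≠ c s(x3, x4) := by
    rw [Sym2.eq_swap]; exact hc.ne h23.symm h34 h24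
  have a3 : c s(x3, x4) ≠ c s(x4, x1) := by
    rw [Sym2.eq_swap]; exact hc.ne h34.symm h41 h13.symm
  have a4 : c s(x4, x1) ≠ c s(x1, x2) := by
    rw [Sym2.eq_swap]; exact hc.ne h41.symm h12 h24.symm
  refine ⟨![x1, x2, x3, x4], ?_, ?_, ?_⟩
  · intro i j hij
    fin_cases i <;> fin_cases j <;> simp at hij ⊢
    · exact h12.ne hij
    · exact h13 hij
    · exact h41.ne hij.symm
    · exact h12.ne hij.symm
    · exact h23.ne hij
    · exact h24 hij
    · exact h13 hij.symm
    · exact h23.ne hij.symm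
    · exact h34.ne hij
    · exact h41.ne hij
    · exact h24 hij.symm
    · exact h34.ne hij.symm
  · intro a b hab
    rcases c4_edges s(a, b) hab with h | h | h | h <;>
      (rw [Sym2.eq_iff] at h; rcases h with ⟨rfl, rfl⟩ | ⟨rfl, rfl⟩)
    · exact h12
    · exact h12.symm
    · exact h23
    · exact h23.symm
    · exact h34
    · exact h34.symm
    · exact h41
    · exact h41.symm
  · intro e he f hf hne
    rcases c4_edges e he with rfl | rfl | rfl | rfl <;>
      rcases c4_edges f hf with rfl | rfl | rfl | rfl <;>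
      first
        | exact absurd rfl hne
        | exact a1
        | exact a1.symm
        | exact a2
        | exact a2.symm
        | exact a3
        | exact a3.symm
        | exact a4
        | exact a4.symm
        | exact hc1
        | exact hc1.symm
        | exact hc2
        | exact hc2.symm

/-- The colours of the edges `X P A P` are pairwise distinct. -/
lemma forced [Fact p.Prime] {c : Sym2 (Vt p) → ℕ} (hc : Proper (gr p) c)
    (hno : ¬ HasRainbow (gr p) (cycleGraph 4) c) (P : ZMod p × ZMod p) (μ : Option (ZMod p)) :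
    ∃ w, (gr p).Adj (L μ (bt μ P)) w ∧ (w = B P μ ∨ w = C P μ) ∧
      c s(L μ (bt μ P), w) = c s(X P, A P) := by
  have xa : (gr p).Adj (X P) (A P) := rfl
  have xb : (gr p).Adj (X P) (B P μ) := rfl
  have xc : (gr p).Adj (X P) (C P μ) := rfl
  have al : (gr p).Adj (A P) (L μ (bt μ P)) := rfl
  have bl : (gr p).Adj (B P μ) (L μ (bt μ P)) := ⟨rfl, rfl⟩
  have cl : (gr p).Adj (C P μ) (L μ (bt μ P)) := ⟨rfl, rfl⟩
  have h1 := opp hc hno xa al bl.symm xb.symm (by simp) (by simp)
  have h2 := opp hc hno xa al cl.symm xc.symm (by simp) (by simp)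
  rcases h1 with h1 | h1
  · exact ⟨_, bl.symm, Or.inl rfl, h1.symm⟩
  rcases h2 with h2 | h2
  · exact ⟨_, cl.symm, Or.inr rfl, h2.symm⟩
  exfalso
  have h3 := h1.symm.trans h2
  rw [Sym2.eq_swap, Sym2.eq_swap (a := C P μ)] at h3
  exact hc.ne xb xc (by simp) h3

/-- Two points are on a common line. -/
lemma exists_line [Fact p.Prime] (P Q : ZMod p × ZMod p) : ∃ μ, bt μ P = bt μ Q := by
  by_cases h : P.1 = Q.1
  · exact ⟨none, h⟩
  · refine ⟨some ((P.2 - Q.2) / (P.1 - Q.1)), ?_⟩
    have h' : P.1 - Q.1 ≠ 0 := sub_ne_zero.2 h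
    simp only [bt]
    field_simp
    ring

/-- Two distinct points are on only one line. -/
lemma unique_line [Fact p.Prime] {P Q : ZMod p × ZMod p} (hPQ : P ≠ Q) {μ ν : Option (ZMod p)}
    (h1 : bt μ P = bt μ Q) (h2 : bt ν P = bt ν Q) : μ = ν := by
  cases μ with
  | none =>
    cases ν with
    | none => rfl
    | some n =>
      exfalso
      simp only [bt] at h1 h2
      rw [h1] at h2
      exact hPQ (Prod.ext h1 (sub_left_inj.1 h2))
  | some m =>
    cases ν with
    | none =>
      exfalso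
      simp only [bt] at h1 h2
      rw [h2] at h1
      exact hPQ (Prod.ext h2 (sub_left_inj.1 h1))
    | some n =>
      simp only [bt] at h1 h2
      have e : (m - n) * (P.1 - Q.1) = 0 := by linear_combination h2 - h1
      rcases mul_eq_zero.1 e with h | h
      · rw [sub_eq_zero.1 h]
      · exfalso
        have h3 : P.1 = Q.1 := sub_eq_zero.1 h
        rw [h3] at h1
        exact hPQ (Prod.ext h3 (sub_left_inj.1 h1))

lemma distinct [Fact p.Prime] {c : Sym2 (Vt p) → ℕ} (hc : Proper (gr p) c)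
    (hno : ¬ HasRainbow (gr p) (cycleGraph 4) c) :
    Function.Injective fun P : ZMod p × ZMod p => c s(X P, A P) := by
  intro P Q h
  by_contra hne
  obtain ⟨μ, hμ⟩ := exists_line P Q
  obtain ⟨w, hw, hw1, hw2⟩ := forced hc hno P μ
  obtain ⟨w', hw', hw1', hw2'⟩ := forced hc hno Q μ
  rw [← hμ] at hw' hw2'
  refine hc.ne hw hw' ?_ (hw2.trans (h.trans hw2'.symm))
  rintro rfl
  rcases hw1 with rfl | rfl <;> rcases hw1' with h1 | h1
  · injection h1 with h2; exact hne h2
  · cases h1
  · cases h1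
  · injection h1 with h2; exact hne h2

lemma many_colours [Fact p.Prime] {c : Sym2 (Vt p) → ℕ} (hc : Proper (gr p) c)
    (hno : ¬ HasRainbow (gr p) (cycleGraph 4) c) {m : ℕ} (hu : Uses (gr p) c m) : p ^ 2 ≤ m := by
  have hsub : Set.range (fun P : ZMod p × ZMod p => c s(X P, A P)) ⊆ c '' (gr p).edgeSet := by
    rintro _ ⟨P, rfl⟩
    exact ⟨_, (show (gr p).Adj (X P) (A P) from rfl), rfl⟩
  have h1 : (Set.range (fun P : ZMod p × ZMod p => c s(X P, A P))).ncard = p ^ 2 := by
    rw [← Set.image_univ, Set.ncard_image_of_injective _ (distinct hc hno), Set.ncard_univ,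
      Nat.card_prod, Nat.card_zmod]
    ring
  rw [← h1, ← hu.1]
  exact Set.ncard_le_ncard hsub hu.2

section few

/-- A number depending on a point and a slope. -/
def ph (P : ZMod p × ZMod p) : Option (ZMod p) → ℕ
  | none => p + P.2.val
  | some m => (P.1 + m).val

variable [Fact p.Prime]

lemma ph_lt (P : ZMod p × ZMod p) (μ : Option (ZMod p)) : ph P μ < 2 * p := by
  cases μ with
  | none => have := ZMod.val_lt P.2; simp only [ph]; omega
  | some m => have := ZMod.val_lt (P.1 + m); simp only [ph]; omega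

lemma ph_inj_slope (P : ZMod p × ZMod p) {μ ν : Option (ZMod p)} (h : ph P μ = ph P ν) :
    μ = ν := by
  cases μ with
  | none =>
    cases ν with
    | none => rfl
    | some n => have := ZMod.val_lt (P.1 + n); simp only [ph] at h; omega
  | some m =>
    cases ν with
    | none => have := ZMod.val_lt (P.1 + m); simp only [ph] at h; omega
    | some n =>
      simp only [ph] at h
      rw [add_left_cancel (ZMod.val_injective p h)]

lemma ph_inj_point {P Q : ZMod p × ZMod p} {μ : Option (ZMod p)} (hb : bt μ P = bt μ Q)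
    (h : ph P μ = ph Q μ) : P = Q := by
  cases μ with
  | none =>
    simp only [ph, bt] at h hb
    exact Prod.ext hb (ZMod.val_injective p (by omega))
  | some m =>
    simp only [ph, bt] at h hb
    have h1 : P.1 = Q.1 := add_right_cancel (ZMod.val_injective p h)
    rw [h1] at hb
    exact Prod.ext h1 (sub_left_inj.1 hb)

/-- The colouring with few colours, on ordered pairs. -/
def cf : Vt p → Vt p → ℕ
  | X _, A _ => 0
  | A _, X _ => 0
  | X _, B P μ => 1 + ph P μ
  | B P μ, X _ => 1 + ph P μ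
  | X _, C P μ => 1 + (2 * p + ph P μ)
  | C P μ, X _ => 1 + (2 * p + ph P μ)
  | A P, L μ _ => 1 + (4 * p + ph P μ)
  | L μ _, A P => 1 + (4 * p + ph P μ)
  | B P _, L μ _ => 1 + (6 * p + ph P μ)
  | L μ _, B P _ => 1 + (6 * p + ph P μ)
  | C P _, L μ _ => 1 + (8 * p + ph P μ)
  | L μ _, C P _ => 1 + (8 * p + ph P μ)
  | _, _ => 0

omit [Fact p.Prime] in
lemma cf_symm (a b : Vt p) : cf a b = cf b a := by cases a <;> cases b <;> rfl

lemma cf_lt (a b : Vt p) : cf a b < 10 * p + 1 := by
  cases a <;> cases b <;> simp only [cf] <;> (try omega)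
  all_goals first
    | (rename_i P Q μ; have := ph_lt Q μ; omega)
    | (rename_i P μ b; have := ph_lt P μ; omega)
    | (rename_i μ b P; have := ph_lt P μ; omega)
    | (rename_i P ν μ b; have := ph_lt P μ; omega)
    | (rename_i μ b P ν; have := ph_lt P μ; omega)

lemma cf_proper (u w w' : Vt p) (h : Ad u w) (h' : Ad u w') (hne : w ≠ w') :
    cf u w ≠ cf u w' := by
  intro hc
  have hl := @ph_lt p _
  cases u with
  | X P =>
    cases w <;> cases w' <;> simp only [Ad, cf] at h h' hc
    case A.A => subst h; subst h'; exact hne rfl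
    case A.B => omega
    case A.C => omega
    case B.A => omega
    case C.A => omega
    case B.B Q μ R ν =>
      subst h; subst h'
      exact hne (by rw [ph_inj_slope P (by omega : ph P μ = ph P ν)])
    case B.C Q μ R ν => have := hl Q μ; have := hl R ν; omega
    case C.B Q μ R ν => have := hl Q μ; have := hl R ν; omega
    case C.C Q μ R ν =>
      subst h; subst h'
      exact hne (by rw [ph_inj_slope P (by omega : ph P μ = ph P ν)])
  | A P =>
    cases w <;> cases w' <;> simp only [Ad, cf] at h h' hc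
    case X.X => subst h; subst h'; exact hne rfl
    case X.L => omega
    case L.X => omega
    case L.L μ b ν b' =>
      have hμ := ph_inj_slope P (by omega : ph P μ = ph P ν)
      subst hμ; subst h; subst h'; exact hne rfl
  | B P κ =>
    cases w <;> cases w' <;> simp only [Ad, cf] at h h' hc
    case X.X => subst h; subst h'; exact hne rfl
    case X.L Q μ b => have := hl P κ; omega
    case L.X μ b Q => have := hl P κ; omega
    case L.L μ b ν b' =>
      obtain ⟨rfl, rfl⟩ := h; obtain ⟨rfl, rfl⟩ := h'; exact hne rfl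
  | C P κ =>
    cases w <;> cases w' <;> simp only [Ad, cf] at h h' hc
    case X.X => subst h; subst h'; exact hne rfl
    case X.L Q μ b => have := hl P κ; omega
    case L.X μ b Q => have := hl P κ; omega
    case L.L μ b ν b' =>
      obtain ⟨rfl, rfl⟩ := h; obtain ⟨rfl, rfl⟩ := h'; exact hne rfl
  | L μ b =>
    cases w <;> cases w' <;> simp only [Ad, cf] at h h' hc
    case A.A P Q =>
      exact hne (by rw [ph_inj_point (h.symm.trans h') (by omega : ph P μ = ph Q μ)])
    case A.B P Q ν => have := hl P μ; have := hl Q μ; omega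
    case A.C P Q ν => have := hl P μ; have := hl Q μ; omega
    case B.A P ν Q => have := hl P μ; have := hl Q μ; omega
    case C.A P ν Q => have := hl P μ; have := hl Q μ; omega
    case B.B P ν Q κ =>
      obtain ⟨rfl, h⟩ := h; obtain ⟨rfl, h'⟩ := h'
      exact hne (by rw [ph_inj_point (h.symm.trans h') (by omega)])
    case B.C P ν Q κ => have := hl P μ; have := hl Q μ; omega
    case C.B P ν Q κ => have := hl P μ; have := hl Q μ; omega
    case C.C P ν Q κ =>
      obtain ⟨rfl, h⟩ := h; obtain ⟨rfl, h'⟩ := h'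
      exact hne (by rw [ph_inj_point (h.symm.trans h') (by omega)])

/-- The label of an edge: a point, and nothing or a slope and a bit. -/
abbrev Lb (p : ℕ) : Type := (ZMod p × ZMod p) × Option (Option (ZMod p) × Bool)

/-- The colouring without rainbow 4-cycle, on ordered pairs. -/
def lb : Vt p → Vt p → Lb p
  | X P, A _ => (P, none)
  | A _, X P => (P, none)
  | X _, B P μ => (P, some (μ, false))
  | B P μ, X _ => (P, some (μ, false))
  | X _, C P μ => (P, some (μ, true))
  | C P μ, X _ => (P, some (μ, true))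
  | A P, L μ _ => (P, some (μ, false))
  | L μ _, A P => (P, some (μ, false))
  | B P _, L μ _ => (P, some (μ, true))
  | L μ _, B P _ => (P, some (μ, true))
  | C P _, L _ _ => (P, none)
  | L _ _, C P _ => (P, none)
  | _, _ => ((0, 0), none)

lemma lb_symm (a b : Vt p) : lb a b = lb b a := by cases a <;> cases b <;> rfl

lemma lb_proper (u w w' : Vt p) (h : Ad u w) (h' : Ad u w') (hne : w ≠ w') :
    lb u w ≠ lb u w' := by
  intro hc
  apply hne
  cases u <;> cases w <;> simp only [Ad] at h <;> cases w' <;> simp only [Ad] at h' <;>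
    simp_all [lb]

/-- Every 4-cycle has two opposite edges with the same label: the case where the first vertex is
an `X` or an `L`. -/
lemma lb_c4_aux {x1 x2 x3 x4 : Vt p} (h12 : Ad x1 x2) (h23 : Ad x2 x3) (h34 : Ad x3 x4)
    (h41 : Ad x4 x1) (h13 : x1 ≠ x3) (h24 : x2 ≠ x4)
    (h : (∃ P, x1 = X P) ∨ ∃ μ b, x1 = L μ b) :
    lb x1 x2 = lb x3 x4 ∨ lb x2 x3 = lb x4 x1 := by
  rcases h with ⟨P, rfl⟩ | ⟨μ, b, rfl⟩
  · cases x2 <;> simp only [Ad] at h12 <;> cases x3 <;> simp only [Ad] at h23 <;>
      cases x4 <;> simp only [Ad] at h34 h41 <;> simp_all [lb]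
  · cases x3 with
    | X Q =>
      cases x2 <;> simp only [Ad] at h12 h23 <;>
        cases x4 <;> simp only [Ad] at h34 h41 <;> simp_all [lb]
    | L ν b' =>
      exfalso
      cases x2 with
      | A P =>
        cases x4 with
        | A Q =>
          have hPQ : P ≠ Q := fun h => h24 (by rw [h])
          have e1 : b = bt μ P := h12
          have e2 : b' = bt ν P := h23
          have e3 : b' = bt ν Q := h34
          have e4 : b = bt μ Q := h41
          have := unique_line hPQ (e1.symm.trans e4) (e2.symm.trans e3)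
          subst this
          exact h13 (by rw [e1, e2])
        | B Q κ =>
          obtain ⟨e1, e2⟩ : κ = ν ∧ b' = bt ν Q := h34
          obtain ⟨e3, e4⟩ : κ = μ ∧ b = bt μ Q := h41
          subst e1; subst e3
          exact h13 (by rw [e2, e4])
        | C Q κ =>
          obtain ⟨e1, e2⟩ : κ = ν ∧ b' = bt ν Q := h34
          obtain ⟨e3, e4⟩ : κ = μ ∧ b = bt μ Q := h41
          subst e1; subst e3
          exact h13 (by rw [e2, e4])
        | X Q => exact h34
        | L κ b'' => exact h34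
      | B Q κ =>
        obtain ⟨e1, e2⟩ : κ = μ ∧ b = bt μ Q := h12
        obtain ⟨e3, e4⟩ : κ = ν ∧ b' = bt ν Q := h23
        subst e1; subst e3
        exact h13 (by rw [e2, e4])
      | C Q κ =>
        obtain ⟨e1, e2⟩ : κ = μ ∧ b = bt μ Q := h12
        obtain ⟨e3, e4⟩ : κ = ν ∧ b' = bt ν Q := h23
        subst e1; subst e3
        exact h13 (by rw [e2, e4])
      | X Q => exact h12
      | L κ b'' => exact h12
    | A Q => cases x2 <;> simp only [Ad] at h12 h23
    | B Q κ => cases x2 <;> simp only [Ad] at h12 h23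
    | C Q κ => cases x2 <;> simp only [Ad] at h12 h23

lemma lb_c4 {x1 x2 x3 x4 : Vt p} (h12 : Ad x1 x2) (h23 : Ad x2 x3) (h34 : Ad x3 x4)
    (h41 : Ad x4 x1) (h13 : x1 ≠ x3) (h24 : x2 ≠ x4) :
    lb x1 x2 = lb x3 x4 ∨ lb x2 x3 = lb x4 x1 := by
  by_cases h : (∃ P, x1 = X P) ∨ ∃ μ b, x1 = L μ b
  · exact lb_c4_aux h12 h23 h34 h41 h13 h24 h
  · have h2 : (∃ P, x2 = X P) ∨ ∃ μ b, x2 = L μ b := by
      cases x1 <;> cases x2 <;> simp_all [Ad]
    rcases lb_c4_aux h23 h34 h41 h12 h24 h13.symm h2 with h3 | h3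
    · exact Or.inr h3
    · exact Or.inl h3.symm

/-- A colouring given by a symmetric function. -/
lemma lift_proper (T : Vt p → Vt p → ℕ) (hs : ∀ a b, T a b = T b a)
    (hT : ∀ u w w', Ad u w → Ad u w' → w ≠ w' → T u w ≠ T u w') :
    Proper (gr p) (Sym2.lift ⟨T, hs⟩) := by
  intro e he f hf hne ⟨v, hve, hvf⟩
  obtain ⟨w, rfl⟩ := Sym2.mem_iff_exists.1 hve
  obtain ⟨w', rfl⟩ := Sym2.mem_iff_exists.1 hvf
  exact hT v w w' he hf fun h => hne (by rw [h])

lemma exists_no_rainbow : ∃ c, Proper (gr p) c ∧ ¬ HasRainbow (gr p) (cycleGraph 4) c := by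
  obtain ⟨n, ⟨N⟩⟩ := Finite.exists_equiv_fin (Lb p)
  have hN : ∀ a b : Lb p, (N a : ℕ) = N b → a = b := fun a b h => N.injective (Fin.ext h)
  refine ⟨Sym2.lift ⟨fun a b => (N (lb a b) : ℕ), fun a b => congrArg (fun z => (N z : ℕ)) (lb_symm a b)⟩,
    lift_proper _ _ fun u w w' h h' hne heq => lb_proper u w w' h h' hne (hN _ _ heq), ?_⟩
  rintro ⟨φ, hinj, hadj, hrb⟩
  have a1 : (cycleGraph 4).Adj 0 1 := by decide
  have a2 : (cycleGraph 4).Adj 1 2 := by decide
  have a3 : (cycleGraph 4).Adj 2 3 := by decide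
  have a4 : (cycleGraph 4).Adj 3 0 := by decide
  have h13 : φ 0 ≠ φ 2 := fun h => absurd (hinj h) (by decide)
  have h24 : φ 1 ≠ φ 3 := fun h => absurd (hinj h) (by decide)
  rcases lb_c4 (hadj _ _ a1) (hadj _ _ a2) (hadj _ _ a3) (hadj _ _ a4) h13 h24 with h | h
  · refine hrb s(0, 1) a1 s(2, 3) a3 (by decide) ?_
    show (N (lb (φ 0) (φ 1)) : ℕ) = N (lb (φ 2) (φ 3))
    rw [h]
  · refine hrb s(1, 2) a2 s(3, 0) a4 (by decide) ?_
    show (N (lb (φ 1) (φ 2)) : ℕ) = N (lb (φ 3) (φ 0))
    rw [h]

lemma exists_few : ∃ m, m ≤ 10 * p + 1 ∧ ∃ c, Proper (gr p) c ∧ Uses (gr p) c m := by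
  let c : Sym2 (Vt p) → ℕ := Sym2.lift ⟨cf, cf_symm⟩
  have hsub : c '' (gr p).edgeSet ⊆ Set.Iio (10 * p + 1) := by
    rintro _ ⟨e, _, rfl⟩
    induction e with
    | _ a b => exact cf_lt a b
  have hfin : (c '' (gr p).edgeSet).Finite := (Set.finite_Iio _).subset hsub
  refine ⟨_, ?_, c, lift_proper _ _ cf_proper, rfl, hfin⟩
  calc _ ≤ (Set.Iio (10 * p + 1)).ncard := Set.ncard_le_ncard hsub (Set.finite_Iio _)
    _ = 10 * p + 1 := by rw [← Nat.card_coe_set_eq]; simp

end few

/-- **No bounded surplus suffices.**  For every `k` there is a finite graph `G` with chromatic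
index `K` such that every proper edge colouring of `G` using at most `K + k` colours contains a
rainbow 4-cycle, while some proper edge colouring of `G` contains none. -/
theorem result (k : ℕ) : ∃ (V : Type) (_ : Finite V) (G : SimpleGraph V) (K : ℕ),
    IsChromaticIndex G K ∧
    (∀ c m, Proper G c → Uses G c m → m ≤ K + k → HasRainbow G (cycleGraph 4) c) ∧
    ∃ c, Proper G c ∧ ¬ HasRainbow G (cycleGraph 4) c := by
  classical
  obtain ⟨p, hp, hprime⟩ := Nat.exists_infinite_primes (k + 12)
  have : Fact p.Prime := ⟨hprime⟩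
  obtain ⟨m, hm, c, hc, hu⟩ := @exists_few p _
  have hne : ∃ m, ∃ c, Proper (gr p) c ∧ Uses (gr p) c m := ⟨m, c, hc, hu⟩
  refine ⟨Vt p, inferInstance, gr p, Nat.find hne, ⟨Nat.find_spec hne, ?_⟩, ?_,
    exists_no_rainbow⟩
  · intro m' hm'
    exact Nat.find_min' hne hm'
  · intro c' m' hc' hu' hle
    by_contra hno
    have h1 := many_colours hc' hno hu'
    have h2 : Nat.find hne ≤ m := Nat.find_min' hne ⟨c, hc, hu⟩
    nlinarith

end Pool.Agent.Results.MP_415bd8_co.Surplus
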